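import Pool.Agent.Y163.MX.Defs
import Pool.Agent.Y163.MW.Asm

/-!
# The number of eigenvalues of wrong weight
-/

set_option autoImplicit false

open Module

namespace Pool.Agent.Y163.MX

universe u v w

open Pool.Agent.Y143 Pool.Agent.Y163.MW

section

variable {K : Type u} [Field K] {V : Type v} [AddCommGroup V] [Module K V]

/-- The overlap of the monodromy filtration with a grading. -/
lemma overlap_sum [CharZero K] {I : Type} [Fintype I] {a c : I → ℤ} {N : Module.End K V}
    {b : Basis I K V} {e h : Module.End K V} (hs : IsSl2 N b a e h) {W : ℤ → Submodule K V}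
    (hW : iSupIndep W) (hb : ∀ i, b i ∈ W (c i)) {M : ℤ → Submodule K V}
    (hM : IsMonodromyFiltrationOn ⊤ N M) :
    ∑ᶠ s : ℤ, overlap M W s = Nat.card {i // c i - a i = 0} := by
  classical
  have h1 := Pool.Agent.Y68.MW.stD Pool.Agent.Y141.MW.stL K V N I b a e h hs M hM
  have h2 : ∀ r s, finrank K (M r ⊓ W s : Submodule K V) =
      Nat.card {i // a i ≤ r ∧ c i = s} := by
    intro r s
    rw [h1 r, gr_eq_span hW b c hb s, span_image_inf, finrank_span_image]
    rfl
  have h3 : ∀ s, (Nat.card {i // a i ≤ s ∧ c i = s} : ℤ) - Nat.card {i // a i ≤ s - 1 ∧ c i = s} =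
      1 * (Nat.card {g : {i // c i - a i = 0} // c g.1 = s} : ℤ) := by
    intro s
    have h4 : Nat.card {i // a i ≤ s ∧ c i = s} = Nat.card {i // a i ≤ s - 1 ∧ c i = s} +
        Nat.card {g : {i // c i - a i = 0} // c g.1 = s} := by
      have e1 : Nat.card {g : {i // c i - a i = 0} // c g.1 = s} =
          Nat.card {i // c i - a i = 0 ∧ c i = s} :=
        Nat.card_congr (Equiv.subtypeSubtypeEquivSubtypeInter (fun i => c i - a i = 0)
          (fun i => c i = s))
      rw [e1, Nat.card_eq_fintype_card, Nat.card_eq_fintype_card, Nat.card_eq_fintype_card,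
        Fintype.card_subtype, Fintype.card_subtype, Fintype.card_subtype,
        ← Finset.card_union_of_disjoint]
      · congr 1
        ext i
        simp only [Finset.mem_filter, Finset.mem_univ, true_and, Finset.mem_union]
        omega
      · rw [Finset.disjoint_filter]
        intro i _ h5 h6
        omega
    rw [h4]
    push_cast
    ring
  unfold overlap
  rw [finsum_congr (fun s => by rw [h2, h2, h3 s]),
    finsum_card (fun g : {i // c i - a i = 0} => c g.1) (fun _ => 1), Finset.sum_const,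
    Nat.card_eq_fintype_card]
  simp

/-- Restriction of a monodromy filtration to the subspace on which it lives. -/
lemma filtration_comap {S : Submodule K V} {N : Module.End K V} (hS : ∀ x ∈ S, N x ∈ S)
    {M : ℤ → Submodule K V} (hM : IsMonodromyFiltrationOn S N M) :
    IsMonodromyFiltrationOn ⊤ (N.restrict hS) (fun s => (M s).comap S.subtype) := by
  have hpow : ∀ (k : ℕ) (x : S), (((N.restrict hS) ^ k) x : V) = (N ^ k) x := by
    intro k x
    rw [Module.End.pow_restrict]
    rfl
  refine ⟨?_, ?_, ?_, fun _ => le_top, ?_, ?_, ?_⟩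
  · intro a b hab x hx
    exact hM.mono hab hx
  · obtain ⟨a, ha⟩ := hM.bot
    refine ⟨a, ?_⟩
    rw [ha, Submodule.comap_bot, Submodule.ker_subtype]
  · obtain ⟨a, ha⟩ := hM.top
    refine ⟨a, ?_⟩
    rw [ha, Submodule.comap_subtype_self]
  · intro a x hx
    exact hM.map a x hx
  · intro a x hx h
    have h' : (N ^ a) (x : V) ∈ M (-a - 1) := by
      rw [← hpow]
      exact h
    exact hM.inj a x hx h'
  · intro a y hy
    obtain ⟨x, hx, hxy⟩ := hM.surj a y hy
    refine ⟨⟨x, hM.le _ hx⟩, hx, ?_⟩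
    show (y : V) - (((N.restrict hS) ^ a) ⟨x, hM.le _ hx⟩ : V) ∈ M (-a - 1)
    rw [hpow]
    exact hxy

end

variable {Ω : Type w} [Field Ω] [CharZero Ω] [IsAlgClosed Ω] {R : Coh.{v, w} Ω} {q : ℕ}

/-- The number of the eigenvalues of wrong weight is at most the difference of the moments. -/
theorem wrong_le (hq : 1 < q) (hR : R.IsCoh q) (m : ℕ) {M : ℤ → Submodule Ω R.V}
    (hM : IsMonodromyFiltrationOn (R.gr m) R.N M) :
    (finrank Ω (R.gr m) : ℤ) - rightDeg R q m M ≤ R.weightMoment q m - R.rankMoment m := by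
  classical
  have := hR.finite
  have hi := internal_comap (Coh.indep_exc_deg hq hR m) (Coh.iSup_exc hR m)
  obtain ⟨S⟩ := Pool.Agent.Y153.MW.stA Ω (R.gr m)
    (fun c => (R.exc q m c).comap (R.gr m).subtype) (R.N.restrict (hR.N_gr m)) hi
    (fun c x hx => Coh.N_exc hq hR m c x hx)
  obtain ⟨e, h, hs⟩ := Pool.Agent.Y664.MW.t_B2 Ω (R.gr m) _ _ S
  have h1 := overlap_sum hs hi.submodule_iSupIndep (c := S.wt) S.mem'
    (filtration_comap (hR.N_gr m) hM)
  have h2 : rightDeg R q m M = Nat.card {p // S.wt p - S.ct p = 0} := by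
    unfold rightDeg
    refine Eq.trans (finsum_congr fun s => ?_) h1
    unfold overlap
    rw [← finrank_comap (S := R.gr m) (W := M s ⊓ R.exc q m s) (inf_le_left.trans (hM.le s)),
      ← finrank_comap (S := R.gr m) (W := M (s - 1) ⊓ R.exc q m s)
        (inf_le_left.trans (hM.le (s - 1))), Submodule.comap_inf, Submodule.comap_inf]
  have h3 : R.rankMoment m = ∑ p, S.ct p ^ 2 := by
    refine Eq.trans ?_ (Pool.Agent.Y461.MW.h Ω (R.gr m) _ _ S)
    refine finsum_congr fun k => ?_
    rw [finrank_range_restrict]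
  have h4 : R.weightMoment q m = ∑ p, S.wt p ^ 2 := by
    rw [← S.weightMoment hi.submodule_iSupIndep]
    refine finsum_congr fun c => ?_
    rw [finrank_comap (Coh.exc_le m c)]
  have h5 : ∑ p, S.wt p ^ 2 - ∑ p, S.ct p ^ 2 = ∑ p : S.P, (S.wt p - S.ct p) ^ 2 := by
    rw [S.sum_sq, add_sub_cancel_left, Fintype.sum_sigma]
    refine Finset.sum_congr rfl fun s _ => ?_
    have : ∀ i : Fin (S.len s + 1), (S.wt ⟨s, i⟩ - S.ct ⟨s, i⟩) ^ 2 =
        (S.top s - S.len s) ^ 2 := by
      intro i
      unfold Strings.wt Strings.ct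
      simp only
      ring
    rw [Finset.sum_congr rfl (fun i _ => this i), Finset.sum_const, Finset.card_univ,
      Fintype.card_fin, nsmul_eq_mul]
    push_cast
    ring
  rw [h2, h3, h4, h5, finrank_eq_card_basis S.b]
  have h6 : (Fintype.card S.P : ℤ) = Nat.card {p : S.P // S.wt p - S.ct p = 0} +
      Nat.card {p : S.P // ¬ (S.wt p - S.ct p = 0)} := by
    rw [Nat.card_eq_fintype_card, Nat.card_eq_fintype_card]
    have := Fintype.card_subtype_compl (fun p : S.P => S.wt p - S.ct p = 0)
    have h7 := Fintype.card_subtype_le (fun p : S.P => S.wt p - S.ct p = 0)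
    omega
  have h8 : (Nat.card {p : S.P // ¬ (S.wt p - S.ct p = 0)} : ℤ) ≤
      ∑ p : S.P, (S.wt p - S.ct p) ^ 2 := by
    rw [Nat.card_eq_fintype_card, Fintype.card_subtype, Finset.card_eq_sum_ones,
      Finset.sum_filter]
    push_cast
    refine Finset.sum_le_sum fun p _ => ?_
    by_cases h9 : S.wt p - S.ct p = 0
    · rw [if_neg (not_not.2 h9)]
      positivity
    · rw [if_pos h9]
      have : 1 ≤ |S.wt p - S.ct p| := Int.one_le_abs h9
      nlinarith [sq_abs (S.wt p - S.ct p)]
  rw [show (Fintype.card (Σ s : S.ι, Fin (S.len s + 1)) : ℤ) = Fintype.card S.P from rfl, h6]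
  linarith

end Pool.Agent.Y163.MX
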