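import Pool.Agent.Y163.MX.Core
import Pool.Agent.Y163.MX.Wrong

/-!
# The sandwich and maximal monodromy
-/

set_option autoImplicit false

open Module

namespace Pool.Agent.Y163.MX

universe u v w

open Pool.Agent.Y143 Pool.Agent.Y163.MW

/-- Sums over the values of a function. -/
lemma finsum_fib {G X : Type*} [Fintype G] (f : G → X) (φ : X → ℝ) :
    ∑ᶠ x : X, φ x * (Nat.card {g // f g = x} : ℝ) = ∑ g, φ (f g) := by
  classical
  rw [finsum_eq_sum_of_support_subset (s := Finset.univ.image f)]
  · rw [← Finset.sum_fiberwise_of_maps_to (s := Finset.univ) (t := Finset.univ.image f) (g := f)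
      (fun g _ => Finset.mem_image_of_mem _ (Finset.mem_univ _))]
    refine Finset.sum_congr rfl fun c _ => ?_
    rw [Finset.sum_congr rfl (g := fun _ => φ c) (fun g hg => by rw [(Finset.mem_filter.1 hg).2]),
      Finset.sum_const, nsmul_eq_mul, mul_comm]
    congr 2
    rw [Nat.card_eq_fintype_card, Fintype.card_subtype]
  · intro c hc
    rw [Function.mem_support] at hc
    by_contra hcon
    apply hc
    have : IsEmpty {g // f g = c} := ⟨fun g => hcon (by
      rw [Finset.coe_image]
      exact ⟨g.1, Finset.mem_coe.2 (Finset.mem_univ _), g.2⟩)⟩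
    rw [Nat.card_of_isEmpty]
    simp

variable {Ω : Type w} [Field Ω] [CharZero Ω] {R : Coh.{v, w} Ω} {q : ℕ}

lemma charP_ne_zero (hR : R.IsCoh q) (m : ℕ) : charP R m ≠ 0 := by
  have hfin := finite_mult hR m
  have h1 : charP R m = ∏ α ∈ hfin.toFinset, (Polynomial.X - Polynomial.C α) ^ mult R m α := by
    unfold charP
    refine finprod_eq_prod_of_mulSupport_subset _ ?_
    intro α hα
    rw [Set.Finite.coe_toFinset]
    intro h0
    apply hα
    simp only
    rw [h0, pow_zero]
  rw [h1]
  exact Finset.prod_ne_zero_iff.2 fun α _ => pow_ne_zero _ (Polynomial.X_sub_C_ne_zero α)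

/-- If all the other characteristic polynomials are rational, so is the remaining one. -/
theorem rational_of_others (hR : R.IsCoh q) {k m : ℕ} (hm : m ≤ k) (h : AltRational R k)
    (hj : ∀ j, j ≤ k → j ≠ m → RationalPoly (charP R j)) : RationalPoly (charP R m) := by
  classical
  obtain ⟨P, Q, hP0, hQ0, hP, hQ, hPQ⟩ := h
  have hne : ∀ s : Finset ℕ, ∏ j ∈ s, charP R j ≠ 0 := fun s =>
    Finset.prod_ne_zero_iff.2 fun j _ => charP_ne_zero hR j
  by_cases hev : Even m
  · have hmem : m ∈ (Finset.range (k + 1)).filter Even :=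
      Finset.mem_filter.2 ⟨Finset.mem_range.2 (by omega), hev⟩
    rw [← Finset.mul_prod_erase _ _ hmem, mul_assoc] at hPQ
    refine RationalPoly.of_mul (g := (∏ j ∈ ((Finset.range (k + 1)).filter Even).erase m,
      charP R j) * Q) ?_ ?_ (mul_ne_zero (hne _) hQ0)
    · rw [hPQ]
      refine RationalPoly.mul (RationalPoly.prod _ fun j hj' => ?_) hP
      have h1 := Finset.mem_filter.1 hj'
      refine hj j (by have := Finset.mem_range.1 h1.1; omega) ?_
      rintro rfl
      exact h1.2 hev
    · refine RationalPoly.mul (RationalPoly.prod _ fun j hj' => ?_) hQ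
      have h1 := Finset.mem_erase.1 hj'
      have h2 := Finset.mem_filter.1 h1.2
      exact hj j (by have := Finset.mem_range.1 h2.1; omega) h1.1
  · have hmem : m ∈ (Finset.range (k + 1)).filter (fun j => ¬ Even j) :=
      Finset.mem_filter.2 ⟨Finset.mem_range.2 (by omega), hev⟩
    rw [← Finset.mul_prod_erase _ _ hmem, mul_assoc] at hPQ
    refine RationalPoly.of_mul (g := (∏ j ∈ ((Finset.range (k + 1)).filter
      (fun j => ¬ Even j)).erase m, charP R j) * P) ?_ ?_ (mul_ne_zero (hne _) hP0)
    · rw [← hPQ]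
      refine RationalPoly.mul (RationalPoly.prod _ fun j hj' => ?_) hQ
      have h1 := Finset.mem_filter.1 hj'
      refine hj j (by have := Finset.mem_range.1 h1.1; omega) ?_
      rintro rfl
      exact hev h1.2
    · refine RationalPoly.mul (RationalPoly.prod _ fun j hj' => ?_) hP
      have h1 := Finset.mem_erase.1 hj'
      have h2 := Finset.mem_filter.1 h1.2
      exact hj j (by have := Finset.mem_range.1 h2.1; omega) h1.1

/-- Powers of `q` as eigenvalues. -/
lemma rational_of_tate {m : ℕ} (h : ∀ α, mult R m α ≠ 0 → ∃ i : ℕ, α = (q : Ω) ^ i) :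
    RationalPoly (charP R m) := by
  classical
  unfold charP
  by_cases hfin : (Function.mulSupport fun α : Ω =>
      (Polynomial.X - Polynomial.C α) ^ mult R m α).Finite
  · rw [finprod_eq_prod_of_mulSupport_subset (s := hfin.toFinset) _
      (by rw [Set.Finite.coe_toFinset])]
    refine RationalPoly.prod _ fun α hα => ?_
    rw [Set.Finite.mem_toFinset, Function.mem_mulSupport] at hα
    have h0 : mult R m α ≠ 0 := fun h0 => hα (by rw [h0, pow_zero])
    obtain ⟨i, rfl⟩ := h α h0
    refine ⟨(Polynomial.X - Polynomial.C ((q : ℚ) ^ i)) ^ mult R m ((q : Ω) ^ i), ?_⟩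
    rw [Polynomial.map_pow, Polynomial.map_sub, Polynomial.map_X, Polynomial.map_C]
    simp
  · rw [finprod_of_infinite_mulSupport hfin]
    exact ⟨1, by simp⟩

/-- If the cohomology outside the degree `m` is good, the characteristic polynomial of `F` on `H^m`
is rational. -/
theorem rational_of_good (hR : R.IsCoh q) {k m : ℕ} (hm : m ≤ k) (h : AltRational R k)
    (hg : GoodOutside R q k m) : RationalPoly (charP R m) := by
  refine rational_of_others hR hm h fun j hj hjm => ?_
  rcases hg j hj hjm with h1 | h1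
  · exact h1
  · exact rational_of_tate h1

/-- The Newton moment is at most the Hodge moment; in the case of equality the slopes are the Hodge
slopes. -/
theorem newton_le_hodge {val : Ω → ℝ} {m : ℕ} {hdg : ℕ → ℕ}
    (h : NewtonAboveHodge R val m hdg) : newtonMoment R val m ≤ (hodgeMoment m hdg : ℝ) ∧
      (newtonMoment R val m = (hodgeMoment m hdg : ℝ) →
        ∃ (n : ℕ) (α : Fin n → Ω), (∀ β, Nat.card {i // α i = β} = mult R m β) ∧
          ∃ a : Fin n → ℕ, (∀ c, Nat.card {i // a i = c} = hdg c) ∧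
            ∀ i, val (α i) = a i) := by
  obtain ⟨n, α, a, hα, ha, hmv, hma, hle, heq⟩ := h
  have h1 : newtonMoment R val m = ∑ i, (2 * val (α i) - (m : ℝ)) ^ 2 := by
    rw [← finsum_fib α (fun x => (2 * val x - (m : ℝ)) ^ 2)]
    unfold newtonMoment
    refine finsum_congr fun x => ?_
    rw [hα]
  have h2 : (hodgeMoment m hdg : ℝ) = ∑ i, (2 * (a i : ℝ) - (m : ℝ)) ^ 2 := by
    classical
    have h3 : hodgeMoment m hdg = ∑ i, (2 * (a i : ℤ) - m) ^ 2 := by
      unfold hodgeMoment
      rw [finsum_congr (fun c => by rw [← ha c])]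
      rw [finsum_eq_sum_of_support_subset (s := Finset.univ.image a)]
      · rw [← Finset.sum_fiberwise_of_maps_to (s := Finset.univ) (t := Finset.univ.image a)
          (g := a) (fun g _ => Finset.mem_image_of_mem _ (Finset.mem_univ _))]
        refine Finset.sum_congr rfl fun c _ => ?_
        rw [Finset.sum_congr rfl (g := fun _ => (2 * (c : ℤ) - m) ^ 2)
          (fun g hg => by rw [(Finset.mem_filter.1 hg).2]), Finset.sum_const, nsmul_eq_mul,
          mul_comm]
        congr 2
        rw [Nat.card_eq_fintype_card, Fintype.card_subtype]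
      · intro c hc
        rw [Function.mem_support] at hc
        by_contra hcon
        apply hc
        have : IsEmpty {g // a g = c} := ⟨fun g => hcon (by
          rw [Finset.coe_image]
          exact ⟨g.1, Finset.mem_coe.2 (Finset.mem_univ _), g.2⟩)⟩
        rw [Nat.card_of_isEmpty]
        simp
    rw [h3]
    push_cast
    rfl
  have h4 := karamata (fun i => val (α i)) (fun i => (a i : ℝ)) hmv hle heq m
  have h5 : 0 ≤ ∑ i, ((a i : ℝ) - val (α i)) ^ 2 := Finset.sum_nonneg fun i _ => sq_nonneg _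
  rw [h1, h2]
  refine ⟨by linarith, fun h6 => ⟨n, α, hα, a, ha, fun i => ?_⟩⟩
  have h7 : ∑ i, ((a i : ℝ) - val (α i)) ^ 2 = 0 := by linarith
  have h8 := (Finset.sum_eq_zero_iff_of_nonneg (fun i _ => sq_nonneg _)).1 h7 i
    (Finset.mem_univ i)
  have h9 := pow_eq_zero_iff (two_ne_zero) |>.1 h8
  linarith

variable [IsAlgClosed Ω]

/-- The sandwich of the moments. -/
theorem sandwich (hq : 1 < q) (hR : R.IsCoh q) {m : ℕ} (hrat : RationalPoly (charP R m))
    {val : Ω → ℝ} (hv : IsVal q val) {hdg : ℕ → ℕ} (h : NewtonAboveHodge R val m hdg) :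
    R.rankMoment m ≤ R.weightMoment q m ∧
      (R.weightMoment q m : ℝ) ≤ newtonMoment R val m ∧
      newtonMoment R val m ≤ (hodgeMoment m hdg : ℝ) := by
  refine ⟨(Coh.moment_deg hq hR m).1, ?_, (newton_le_hodge h).1⟩
  rw [newton_eq hq hR hrat hv]
  have : 0 ≤ ∑ᶠ α : Ω, (2 * val α - Coh.wtf q α) ^ 2 * (mult R m α : ℝ) :=
    finsum_nonneg fun α => mul_nonneg (sq_nonneg _) (Nat.cast_nonneg _)
  linarith

/-- Maximal monodromy. -/
theorem maximal (hq : 1 < q) (hR : R.IsCoh q) {m : ℕ} (hrat : RationalPoly (charP R m))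
    {val : Ω → ℝ} (hv : IsVal q val) {hdg : ℕ → ℕ} (h : NewtonAboveHodge R val m hdg)
    (hmax : hodgeMoment m hdg ≤ R.rankMoment m) :
    R.MWPure q m ∧ (∀ α, mult R m α ≠ 0 → ∃ a : ℕ, hdg a ≠ 0 ∧ IsWeilNumber q (2 * (a : ℤ)) α ∧
      val α = a) ∧ ∀ a : ℕ, finrank Ω (R.exc q m (2 * (a : ℤ) - m)) = hdg a := by
  classical
  obtain ⟨s1, s2, s3⟩ := sandwich hq hR hrat hv h
  have hmax' : (hodgeMoment m hdg : ℝ) ≤ (R.rankMoment m : ℝ) := by exact_mod_cast hmax
  have s1' : (R.rankMoment m : ℝ) ≤ (R.weightMoment q m : ℝ) := by exact_mod_cast s1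
  have e1 : R.rankMoment m = R.weightMoment q m := by
    have : (R.rankMoment m : ℝ) = (R.weightMoment q m : ℝ) := by linarith
    exact_mod_cast this
  have e2 : newtonMoment R val m = (R.weightMoment q m : ℝ) := by linarith
  have e3 : newtonMoment R val m = (hodgeMoment m hdg : ℝ) := by linarith
  obtain ⟨n, α, hα, a, ha, hva⟩ := (newton_le_hodge h).2 e3
  -- slopes and weights
  have h0 : ∑ᶠ α : Ω, (2 * val α - Coh.wtf q α) ^ 2 * (mult R m α : ℝ) = 0 := by
    have := newton_eq hq hR hrat hv
    linarith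
  have h1 : ∑ i, (2 * val (α i) - (Coh.wtf q (α i) : ℝ)) ^ 2 = 0 := by
    rw [← finsum_fib α (fun x => (2 * val x - (Coh.wtf q x : ℝ)) ^ 2), ← h0]
    exact finsum_congr fun x => by rw [hα]
  have h2 : ∀ i, Coh.wtf q (α i) = 2 * (a i : ℤ) := by
    intro i
    have h3 := (Finset.sum_eq_zero_iff_of_nonneg (fun i _ => sq_nonneg _)).1 h1 i
      (Finset.mem_univ i)
    have h4 := pow_eq_zero_iff (two_ne_zero) |>.1 h3
    rw [hva i] at h4
    have h5 : ((Coh.wtf q (α i) : ℤ) : ℝ) = ((2 * (a i : ℤ) : ℤ) : ℝ) := by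
      push_cast
      linarith
    exact_mod_cast h5
  refine ⟨(Coh.moment_deg hq hR m).2.1 e1, fun β hβ => ?_, fun c => ?_⟩
  · rw [← hα β] at hβ
    have : Nonempty {i // α i = β} := by
      by_contra hcon
      rw [not_nonempty_iff] at hcon
      exact hβ Nat.card_of_isEmpty
    obtain ⟨i, rfl⟩ := this
    refine ⟨a i, ?_, ?_, hva i⟩
    · rw [← ha (a i)]
      have : Nonempty {j // a j = a i} := ⟨⟨i, rfl⟩⟩
      exact Nat.card_pos.ne'
    · obtain ⟨w, hw⟩ : ∃ w : ℤ, IsWeilNumber q w (α i) := by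
        by_contra hcon
        exact hβ ((hα _).trans (mult_eq_zero hR hcon))
      have h6 := Coh.wtf_eq hq hw
      rw [h2 i] at h6
      rw [h6]
      exact hw
  · obtain ⟨I, _, b, p, hb⟩ := exists_basis hR
    have h3 : (finrank Ω (R.exc q m (2 * (c : ℤ) - m)) : ℝ) =
        ∑ᶠ x : Ω, (if Coh.wtf q x = 2 * (c : ℤ) then (1 : ℝ) else 0) * (mult R m x : ℝ) := by
      rw [finsum_mult hR hb m (fun x => if Coh.wtf q x = 2 * (c : ℤ) then (1 : ℝ) else 0),
        finrank_exc hq hR hb, Finset.sum_boole]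
      congr 1
      have e : Nat.card {i // ((p i).1, Coh.wtf q (p i).2 - ((p i).1 : ℤ)) =
          (m, 2 * (c : ℤ) - m)} =
          Nat.card {i : {i // (p i).1 = m} // Coh.wtf q (p i.1).2 = 2 * (c : ℤ)} := by
        refine Nat.card_congr ?_
        refine (Equiv.subtypeEquivRight fun i => ?_).trans
          (Equiv.subtypeSubtypeEquivSubtypeInter (fun i => (p i).1 = m)
            (fun i => Coh.wtf q (p i).2 = 2 * (c : ℤ))).symm
        rw [Prod.ext_iff]
        constructor
        · rintro ⟨h1, h2⟩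
          simp only at h1 h2
          refine ⟨h1, ?_⟩
          rw [h1] at h2
          linarith
        · rintro ⟨h1, h2⟩
          refine ⟨h1, ?_⟩
          simp only
          rw [h1, h2]
      rw [e, Nat.card_eq_fintype_card, Fintype.card_subtype]
    have h4 : ∑ᶠ x : Ω, (if Coh.wtf q x = 2 * (c : ℤ) then (1 : ℝ) else 0) * (mult R m x : ℝ) =
        (hdg c : ℝ) := by
      have h5 := finsum_fib α (fun x => if Coh.wtf q x = 2 * (c : ℤ) then (1 : ℝ) else 0)
      rw [finsum_congr (fun x => by rw [hα x])] at h5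
      rw [h5, Finset.sum_boole, ← ha c, Nat.card_eq_fintype_card, Fintype.card_subtype]
      congr 2
      ext i
      simp only [Finset.mem_filter, Finset.mem_univ, true_and]
      rw [h2 i]
      omega
    rw [h4] at h3
    exact_mod_cast h3

end Pool.Agent.Y163.MX
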