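import Mathlib

/-!
# The inequality of Karamata for the square function
-/

set_option autoImplicit false

namespace Pool.Agent.Y163.MX

/-- Abel summation: if `v` is nondecreasing, the partial sums of `d` are nonpositive and the total
sum is zero, then `∑ v i * d i ≥ 0`. -/
lemma abel_nonneg (n : ℕ) (v d : ℕ → ℝ) (hv : ∀ i, i + 1 < n → v i ≤ v (i + 1))
    (hd : ∀ k, k ≤ n → ∑ i ∈ Finset.range k, d i ≤ 0) (h0 : ∑ i ∈ Finset.range n, d i = 0) :
    0 ≤ ∑ i ∈ Finset.range n, v i * d i := by
  have key : ∀ m, m + 1 ≤ n → v m * ∑ i ∈ Finset.range (m + 1), d i ≤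
      ∑ i ∈ Finset.range (m + 1), v i * d i := by
    intro m
    induction m with
    | zero => intro _; simp
    | succ m ih =>
      intro hm
      have h1 := ih (by omega)
      rw [Finset.sum_range_succ _ (m + 1), Finset.sum_range_succ _ (m + 1)]
      have h2 := hd (m + 1) (by omega)
      have h3 := hv m (by omega)
      nlinarith
  rcases Nat.eq_zero_or_pos n with h | h
  · subst h
    simp
  · obtain ⟨m, rfl⟩ : ∃ m, n = m + 1 := ⟨n - 1, by omega⟩
    have := key m le_rfl
    rw [h0, mul_zero] at this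
    exact this

/-- The inequality of Karamata for `x ↦ (2 x - c) ^ 2`, with the case of equality. -/
theorem karamata {n : ℕ} (v a : Fin n → ℝ) (hv : Monotone v)
    (hle : ∀ k : ℕ, ∑ i ∈ Finset.univ.filter (fun i : Fin n => (i : ℕ) < k), a i ≤
      ∑ i ∈ Finset.univ.filter (fun i : Fin n => (i : ℕ) < k), v i)
    (heq : ∑ i, a i = ∑ i, v i) (c : ℝ) :
    ∑ i, (2 * v i - c) ^ 2 + 4 * ∑ i, (a i - v i) ^ 2 ≤ ∑ i, (2 * a i - c) ^ 2 := by
  classical
  let V : ℕ → ℝ := fun i => if h : i < n then v ⟨i, h⟩ else 0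
  let D : ℕ → ℝ := fun i => if h : i < n then a ⟨i, h⟩ - v ⟨i, h⟩ else 0
  have hpart : ∀ k, k ≤ n → ∑ i ∈ Finset.range k, D i =
      ∑ i ∈ Finset.univ.filter (fun i : Fin n => (i : ℕ) < k), a i -
        ∑ i ∈ Finset.univ.filter (fun i : Fin n => (i : ℕ) < k), v i := by
    intro k hk
    rw [← Finset.sum_sub_distrib]
    symm
    refine Finset.sum_bij (fun i _ => (i : ℕ)) ?_ ?_ ?_ ?_
    · intro i hi
      exact Finset.mem_range.2 (Finset.mem_filter.1 hi).2
    · intro i _ j _ hij
      exact Fin.ext hij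
    · intro i hi
      have h1 := Finset.mem_range.1 hi
      exact ⟨⟨i, by omega⟩, Finset.mem_filter.2 ⟨Finset.mem_univ _, h1⟩, rfl⟩
    · intro i hi
      simp only [D]
      rw [dif_pos i.2]
  have h1 := abel_nonneg n V D ?_ ?_ ?_
  · have h2 : ∑ i ∈ Finset.range n, V i * D i = ∑ i : Fin n, v i * (a i - v i) := by
      rw [Finset.sum_range]
      refine Finset.sum_congr rfl fun i _ => ?_
      simp only [V, D]
      rw [dif_pos i.2, dif_pos i.2]
    rw [h2] at h1
    have h3 : ∑ i, (2 * a i - c) ^ 2 = ∑ i, (2 * v i - c) ^ 2 + 4 * ∑ i, (a i - v i) ^ 2 +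
        8 * ∑ i, v i * (a i - v i) - 4 * c * (∑ i, a i - ∑ i, v i) := by
      rw [← Finset.sum_sub_distrib, Finset.mul_sum, Finset.mul_sum, Finset.mul_sum,
        ← Finset.sum_add_distrib, ← Finset.sum_add_distrib, ← Finset.sum_sub_distrib]
      refine Finset.sum_congr rfl fun i _ => ?_
      ring
    rw [h3, heq]
    linarith
  · intro i hi
    simp only [V]
    rw [dif_pos (by omega), dif_pos hi]
    exact hv (by rw [Fin.mk_le_mk]; omega)
  · intro k hk
    rw [hpart k hk]
    have := hle k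
    linarith
  · rw [hpart n le_rfl]
    have h4 : Finset.univ.filter (fun i : Fin n => (i : ℕ) < n) = Finset.univ := by
      ext i
      simp
    rw [h4, heq, sub_self]

end Pool.Agent.Y163.MX
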