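import Pool.Agent.Y163.MX.Weil
import Pool.Agent.Y163.MX.Kar
import Pool.Agent.Y163.MW.Gen

/-!
# Weights, slopes and Hodge numbers: the comparison of the second moments
-/

set_option autoImplicit false

open Module

namespace Pool.Agent.Y163.MX

universe u v w

open Pool.Agent.Y143 Pool.Agent.Y163.MW

variable {Ω : Type w} [Field Ω] [CharZero Ω] {R : Coh.{v, w} Ω} {q : ℕ}

lemma mult_eq_zero (hR : R.IsCoh q) {m : ℕ} {α : Ω} (h : ¬ ∃ w : ℤ, IsWeilNumber q w α) :
    mult R m α = 0 := by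
  have : R.gr m ⊓ R.F.maxGenEigenspace α = ⊥ := Coh.pc_eq_bot hR h
  unfold mult
  rw [this, finrank_bot]

lemma finite_mult (hR : R.IsCoh q) (m : ℕ) : {α | mult R m α ≠ 0}.Finite := by
  have := hR.finite
  have h1 : iSupIndep (fun α => R.pc (m, α)) :=
    (Coh.indep_pc hR).comp (f := fun α : Ω => (m, α)) (fun _ _ h => (Prod.mk.inj h).2)
  have h2 := WellFoundedGT.finite_ne_bot_of_iSupIndep h1
  refine h2.subset fun α hα hbot => hα ?_
  have : R.gr m ⊓ R.F.maxGenEigenspace α = ⊥ := hbot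
  unfold mult
  rw [this, finrank_bot]

/-- The multiplicity of a root of the characteristic polynomial. -/
lemma rootMultiplicity_charP (hR : R.IsCoh q) (m : ℕ) (β : Ω) :
    (charP R m).rootMultiplicity β = mult R m β := by
  classical
  have hfin := finite_mult hR m
  have h1 : charP R m = ∏ α ∈ hfin.toFinset, (Polynomial.X - Polynomial.C α) ^ mult R m α := by
    unfold charP
    refine finprod_eq_prod_of_mulSupport_subset _ ?_
    intro α hα
    rw [Set.Finite.coe_toFinset]
    intro h0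
    apply hα
    simp only
    rw [h0, pow_zero]
  have hne : ∏ α ∈ hfin.toFinset, (Polynomial.X - Polynomial.C α) ^ mult R m α ≠ 0 :=
    Finset.prod_ne_zero_iff.2 fun α _ => pow_ne_zero _ (Polynomial.X_sub_C_ne_zero α)
  rw [h1, ← Polynomial.count_roots, Polynomial.roots_prod _ _ hne, Multiset.count_bind]
  have h2 : ∀ α, Multiset.count β ((Polynomial.X - Polynomial.C α) ^ mult R m α).roots =
      if α = β then mult R m β else 0 := by
    intro α
    rw [Polynomial.roots_pow, Polynomial.roots_X_sub_C, Multiset.count_nsmul,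
      Multiset.count_singleton]
    split_ifs with h3 h4 h4
    · rw [h4, mul_one]
    · exact absurd h3.symm h4
    · exact absurd h4.symm h3
    · rw [mul_zero]
  simp only [h2]
  rw [← Finset.sum_eq_multiset_sum, Finset.sum_ite_eq' hfin.toFinset β (fun _ => mult R m β)]
  split_ifs with h
  · rfl
  · rw [Set.Finite.mem_toFinset, Set.mem_setOf_eq, not_not] at h
    exact h.symm

/-- The symmetry of the eigenvalues of a given weight. -/
lemma mult_conj (hq : 1 < q) (hR : R.IsCoh q) {m : ℕ} (hrat : RationalPoly (charP R m)) {w : ℤ}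
    {α : Ω} (hα : IsWeilNumber q w α) : mult R m ((q : Ω) ^ w / α) = mult R m α := by
  obtain ⟨P, hP⟩ := hrat
  have h1 := minpoly_conj (by omega : 0 < q) hα
  have hint : IsIntegral ℚ α := hα.1.isIntegral
  have hint' : IsIntegral ℚ ((q : Ω) ^ w / α) := by
    by_contra hcon
    rw [minpoly.eq_zero hcon] at h1
    exact minpoly.ne_zero hint h1.symm
  rw [← rootMultiplicity_charP hR, ← rootMultiplicity_charP hR, hP]
  exact rootMultiplicity_conj h1 hint hint'

/-- The weight of the conjugate. -/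
lemma weil_conj (hq : 1 < q) {w : ℤ} {α : Ω} (hα : IsWeilNumber q w α) :
    IsWeilNumber q w ((q : Ω) ^ w / α) := by
  have h1 := minpoly_conj (by omega : 0 < q) hα
  refine ⟨?_, fun z hz => hα.2 z (by rwa [h1] at hz)⟩
  by_contra hcon
  have h2 : ¬ IsIntegral ℚ ((q : Ω) ^ w / α) := fun h => hcon h.isAlgebraic
  rw [minpoly.eq_zero h2] at h1
  exact minpoly.ne_zero hα.1.isIntegral h1.symm

section adapted

/-- A basis of the cohomology consisting of generalized eigenvectors in the groups `H^m`. -/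
lemma exists_basis [IsAlgClosed Ω] (hR : R.IsCoh q) : ∃ (I : Type w) (_ : Fintype I)
    (b : Basis I Ω R.V) (p : I → ℕ × Ω), ∀ i, b i ∈ R.pc (p i) := by
  classical
  have := hR.finite
  have hint : DirectSum.IsInternal R.pc := by
    apply DirectSum.isInternal_submodule_of_iSupIndep_of_iSup_eq_top (Coh.indep_pc hR)
    rw [eq_top_iff, ← hR.isInternal.submodule_iSup_eq_top]
    refine iSup_le fun m => ?_
    rw [Coh.gr_eq hR m]
    exact iSup_le fun α => le_iSup R.pc (m, α)
  let b := hint.collectedBasis (fun p => Module.finBasis Ω (R.pc p))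
  have hfin : Finite (Σ p : ℕ × Ω, Fin (finrank Ω (R.pc p))) := Module.Finite.finite_basis b
  exact ⟨_, Fintype.ofFinite _, b, fun i => i.1, fun i => hint.collectedBasis_mem _ i⟩

variable {I : Type w} [Fintype I] {b : Basis I Ω R.V} {p : I → ℕ × Ω}

lemma mult_eq_card (hR : R.IsCoh q) (hb : ∀ i, b i ∈ R.pc (p i)) (m : ℕ) (α : Ω) :
    mult R m α = Nat.card {i // p i = (m, α)} :=
  finrank_gr (Coh.indep_pc hR) b p hb (m, α)

lemma weil_p (hR : R.IsCoh q) (hb : ∀ i, b i ∈ R.pc (p i)) (i : I) :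
    ∃ w : ℤ, IsWeilNumber q w (p i).2 := by
  by_contra hcon
  have h1 : R.pc (p i) = ⊥ := Coh.pc_eq_bot (m := (p i).1) hR hcon
  have h2 := hb i
  rw [h1, Submodule.mem_bot] at h2
  exact b.ne_zero i h2

lemma mem_exc_p (hq : 1 < q) (hR : R.IsCoh q) (hb : ∀ i, b i ∈ R.pc (p i)) (i : I) :
    b i ∈ R.exc q (p i).1 (Coh.wtf q (p i).2 - (p i).1) := by
  obtain ⟨w, hw⟩ := weil_p hR hb i
  refine Submodule.mem_iSup_of_mem (p i).2 (Submodule.mem_iSup_of_mem ?_ (hb i))
  rw [Coh.wtf_eq hq hw]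
  rwa [show ((p i).1 : ℤ) + (w - (p i).1) = w by ring]

lemma finrank_exc (hq : 1 < q) (hR : R.IsCoh q) (hb : ∀ i, b i ∈ R.pc (p i)) (m : ℕ) (c : ℤ) :
    finrank Ω (R.exc q m c) =
      Nat.card {i // ((p i).1, Coh.wtf q (p i).2 - ((p i).1 : ℤ)) = (m, c)} :=
  finrank_gr (Coh.indep_exc hq hR) b (fun i => ((p i).1, Coh.wtf q (p i).2 - ((p i).1 : ℤ)))
    (fun i => mem_exc_p hq hR hb i) (m, c)

/-- Sums over the eigenvalues. -/
lemma finsum_mult (hR : R.IsCoh q) (hb : ∀ i, b i ∈ R.pc (p i)) (m : ℕ) (g : Ω → ℝ) :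
    ∑ᶠ α : Ω, g α * (mult R m α : ℝ) = ∑ i : {i // (p i).1 = m}, g (p i.1).2 := by
  classical
  rw [finsum_eq_sum_of_support_subset (s := (Finset.univ : Finset {i // (p i).1 = m}).image
    (fun i => (p i.1).2))]
  · rw [← Finset.sum_fiberwise_of_maps_to (s := Finset.univ)
      (t := (Finset.univ : Finset {i // (p i).1 = m}).image (fun i => (p i.1).2))
      (g := fun i => (p i.1).2) (fun i _ => Finset.mem_image_of_mem _ (Finset.mem_univ _))]
    refine Finset.sum_congr rfl fun α _ => ?_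
    rw [Finset.sum_congr rfl (g := fun _ => g α) (fun i hi => by
      rw [(Finset.mem_filter.1 hi).2]), Finset.sum_const, nsmul_eq_mul, mul_comm]
    congr 2
    rw [mult_eq_card hR hb]
    have e : Nat.card {i // p i = (m, α)} = Nat.card {i : {i // (p i).1 = m} // (p i.1).2 = α} := by
      refine Nat.card_congr ?_
      refine (Equiv.subtypeEquivRight fun i => ?_).trans
        (Equiv.subtypeSubtypeEquivSubtypeInter (fun i => (p i).1 = m) (fun i => (p i).2 = α)).symm
      exact Prod.ext_iff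
    rw [e, Nat.card_eq_fintype_card, Fintype.card_subtype]
  · intro α hα
    rw [Function.mem_support] at hα
    by_contra hcon
    apply hα
    have : mult R m α = 0 := by
      rw [mult_eq_card hR hb]
      have : IsEmpty {i // p i = (m, α)} := ⟨fun i => hcon (by
        rw [Finset.coe_image]
        exact ⟨⟨i.1, by rw [i.2]⟩, Finset.mem_coe.2 (Finset.mem_univ _), by simp [i.2]⟩)⟩
      exact Nat.card_of_isEmpty
    rw [this]
    simp

/-- The weight moment as a sum over the basis. -/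
lemma weightMoment_eq (hq : 1 < q) (hR : R.IsCoh q) (hb : ∀ i, b i ∈ R.pc (p i)) (m : ℕ) :
    R.weightMoment q m = ∑ i : {i // (p i).1 = m}, (Coh.wtf q (p i.1).2 - (m : ℤ)) ^ 2 := by
  classical
  rw [← finsum_card (fun i : {i // (p i).1 = m} => Coh.wtf q (p i.1).2 - (m : ℤ)) (fun c => c ^ 2)]
  unfold Coh.weightMoment squareSum
  refine finsum_congr fun c => ?_
  rw [finrank_exc hq hR hb m c]
  congr 2
  refine Nat.card_congr ?_
  refine (Equiv.subtypeEquivRight fun i => ?_).trans
    (Equiv.subtypeSubtypeEquivSubtypeInter (fun i => (p i).1 = m)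
      (fun i => Coh.wtf q (p i).2 - (m : ℤ) = c)).symm
  rw [Prod.ext_iff]
  constructor
  · rintro ⟨h1, h2⟩
    simp only at h1 h2
    exact ⟨h1, by rw [← h1]; exact h2⟩
  · rintro ⟨h1, h2⟩
    exact ⟨h1, by simp only; rw [h1]; exact h2⟩

end adapted

/-- The mixed sum vanishes. -/
lemma mixed_zero (hq : 1 < q) (hR : R.IsCoh q) {m : ℕ} (hrat : RationalPoly (charP R m))
    {val : Ω → ℝ} (hv : IsVal q val) :
    ∑ᶠ α : Ω, (((Coh.wtf q α : ℝ) - m) * (2 * val α - Coh.wtf q α)) * (mult R m α : ℝ) = 0 := by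
  classical
  have hfin := finite_mult hR m
  set g : Ω → ℝ := fun α => (((Coh.wtf q α : ℝ) - m) * (2 * val α - Coh.wtf q α)) *
    (mult R m α : ℝ) with hg
  have hq0 : (q : Ω) ≠ 0 := Nat.cast_ne_zero.2 (by omega)
  have h1 : ∑ᶠ α : Ω, g α = ∑ α ∈ hfin.toFinset, g α := by
    refine finsum_eq_sum_of_support_subset _ ?_
    intro α hα
    rw [Set.Finite.coe_toFinset]
    intro h0
    apply hα
    simp only [g]
    rw [h0]
    simp
  rw [h1]
  -- the involution
  let ι : Ω → Ω := fun α => (q : Ω) ^ (Coh.wtf q α) / α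
  have hw : ∀ α ∈ hfin.toFinset, IsWeilNumber q (Coh.wtf q α) α := by
    intro α hα
    rw [Set.Finite.mem_toFinset] at hα
    obtain ⟨w, hw⟩ : ∃ w : ℤ, IsWeilNumber q w α := by
      by_contra hcon
      exact hα (mult_eq_zero hR hcon)
    rwa [Coh.wtf_eq hq hw]
  have hwι : ∀ α ∈ hfin.toFinset, Coh.wtf q (ι α) = Coh.wtf q α := fun α hα =>
    Coh.wtf_eq hq (weil_conj hq (hw α hα))
  have hι : ∀ α ∈ hfin.toFinset, ι α ∈ hfin.toFinset := by
    intro α hα
    have h2 := mult_conj hq hR hrat (hw α hα)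
    rw [Set.Finite.mem_toFinset] at hα ⊢
    show mult R m (ι α) ≠ 0
    rw [show mult R m (ι α) = mult R m α from h2]
    exact hα
  have hιι : ∀ α ∈ hfin.toFinset, ι (ι α) = α := by
    intro α hα
    have hα0 : α ≠ 0 := weil_ne_zero (by omega) (hw α hα)
    show (q : Ω) ^ (Coh.wtf q (ι α)) / ι α = α
    rw [hwι α hα]
    show (q : Ω) ^ (Coh.wtf q α) / ((q : Ω) ^ (Coh.wtf q α) / α) = α
    have := zpow_ne_zero (Coh.wtf q α) hq0
    field_simp
  have hvz : ∀ n : ℕ, val ((q : Ω) ^ n) = n := by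
    intro n
    induction n with
    | zero =>
      have h3 := hv.mul 1 1 one_ne_zero one_ne_zero
      rw [mul_one] at h3
      rw [pow_zero]
      push_cast
      linarith
    | succ n ih =>
      rw [pow_succ, hv.mul _ _ (pow_ne_zero _ hq0) hq0, ih, hv.norm]
      push_cast
      ring
  have hvq : ∀ n : ℤ, val ((q : Ω) ^ n) = n := by
    intro n
    rcases le_total 0 n with hn | hn
    · obtain ⟨k, rfl⟩ := Int.eq_ofNat_of_zero_le hn
      rw [zpow_natCast, hvz]
      simp
    · obtain ⟨k, hk⟩ : ∃ k : ℕ, n = -(k : ℤ) := ⟨n.natAbs, by omega⟩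
      subst hk
      have h4 := hv.mul ((q : Ω) ^ (-(k : ℤ))) ((q : Ω) ^ k) (zpow_ne_zero _ hq0)
        (pow_ne_zero _ hq0)
      rw [← zpow_natCast (q : Ω) k, ← zpow_add₀ hq0, neg_add_cancel, zpow_zero, zpow_natCast,
        hvz] at h4
      have h5 := hvz 0
      rw [pow_zero] at h5
      rw [h5] at h4
      push_cast at h4 ⊢
      linarith
  have hval : ∀ α ∈ hfin.toFinset, val (ι α) = Coh.wtf q α - val α := by
    intro α hα
    have hα0 : α ≠ 0 := weil_ne_zero (by omega) (hw α hα)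
    have h3 := hv.mul (ι α) α (div_ne_zero (zpow_ne_zero _ hq0) hα0) hα0
    have h4 : ι α * α = (q : Ω) ^ (Coh.wtf q α) := div_mul_cancel₀ _ hα0
    rw [h4, hvq] at h3
    linarith
  have hneg : ∀ α ∈ hfin.toFinset, g (ι α) = -g α := by
    intro α hα
    have h2 : mult R m (ι α) = mult R m α := mult_conj hq hR hrat (hw α hα)
    simp only [g]
    rw [hwι α hα, hval α hα, h2]
    ring
  have hsum : ∑ α ∈ hfin.toFinset, g α = ∑ α ∈ hfin.toFinset, g (ι α) := by
    refine Finset.sum_bij (fun α _ => ι α) (fun α hα => hι α hα) ?_ ?_ ?_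
    · intro α hα β hβ h
      rw [← hιι α hα, ← hιι β hβ, h]
    · intro α hα
      exact ⟨ι α, hι α hα, hιι α hα⟩
    · intro α hα
      rw [hιι α hα]
  rw [Finset.sum_congr rfl hneg, Finset.sum_neg_distrib] at hsum
  linarith

/-- The weight moment is at most the Newton moment; the difference is the sum of the squares of the
differences of the slopes and the halves of the weights. -/
theorem newton_eq [IsAlgClosed Ω] (hq : 1 < q) (hR : R.IsCoh q) {m : ℕ}
    (hrat : RationalPoly (charP R m)) {val : Ω → ℝ} (hv : IsVal q val) :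
    newtonMoment R val m = (R.weightMoment q m : ℝ) +
      ∑ᶠ α : Ω, (2 * val α - Coh.wtf q α) ^ 2 * (mult R m α : ℝ) := by
  classical
  obtain ⟨I, _, b, p, hb⟩ := exists_basis hR
  have h0 := mixed_zero hq hR hrat hv
  unfold newtonMoment
  rw [finsum_mult hR hb m (fun α => ((Coh.wtf q α : ℝ) - m) * (2 * val α - Coh.wtf q α))] at h0
  rw [finsum_mult hR hb m (fun α => (2 * val α - m) ^ 2),
    finsum_mult hR hb m (fun α => (2 * val α - Coh.wtf q α) ^ 2), weightMoment_eq hq hR hb]
  push_cast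
  have h1 : ∑ i : {i // (p i).1 = m}, (2 * val (p i.1).2 - (m : ℝ)) ^ 2 =
      ∑ i : {i // (p i).1 = m}, ((Coh.wtf q (p i.1).2 : ℝ) - m) ^ 2 +
      ∑ i : {i // (p i).1 = m}, (2 * val (p i.1).2 - Coh.wtf q (p i.1).2) ^ 2 +
      2 * ∑ i : {i // (p i).1 = m}, ((Coh.wtf q (p i.1).2 : ℝ) - m) *
        (2 * val (p i.1).2 - Coh.wtf q (p i.1).2) := by
    rw [Finset.mul_sum, ← Finset.sum_add_distrib, ← Finset.sum_add_distrib]
    refine Finset.sum_congr rfl fun i _ => ?_
    ring
  rw [h1, h0, mul_zero, add_zero]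

end Pool.Agent.Y163.MX
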