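import Pool.Agent.Y163.MW.Defs

/-!
# Slopes, Hodge numbers and characteristic polynomials
-/

set_option autoImplicit false

open Module

namespace Pool.Agent.Y163.MX

universe u v w

open Pool.Agent.H914 Pool.Agent.Y143 Pool.Agent.Y163.MW

section

variable {Ω : Type w} [Field Ω]

/-- The multiplicity of the eigenvalue `α` of `F` on `H^m`. -/
noncomputable def mult (R : Coh.{v, w} Ω) (m : ℕ) (α : Ω) : ℕ :=
  finrank Ω (R.gr m ⊓ R.F.maxGenEigenspace α : Submodule Ω R.V)

/-- The characteristic polynomial of `F` on `H^m`. -/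
noncomputable def charP (R : Coh.{v, w} Ω) (m : ℕ) : Polynomial Ω :=
  ∏ᶠ α : Ω, (Polynomial.X - Polynomial.C α) ^ mult R m α

/-- The polynomial `f` has rational coefficients. -/
def RationalPoly [CharZero Ω] (f : Polynomial Ω) : Prop :=
  ∃ P : Polynomial ℚ, f = P.map (algebraMap ℚ Ω)

/-- The cohomology in the degrees `j ≤ k`, `j ≠ m`, is good: the characteristic polynomial of `F` on
`H^j` has rational coefficients, or all the eigenvalues of `F` on `H^j` are powers of `q` (this is
the case, over a suitable finite extension of the base field, if `H^j` is generated by classes of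
algebraic cycles). -/
def GoodOutside [CharZero Ω] (R : Coh.{v, w} Ω) (q k m : ℕ) : Prop :=
  ∀ j, j ≤ k → j ≠ m → RationalPoly (charP R j) ∨ ∀ α, mult R j α ≠ 0 → ∃ i : ℕ, α = (q : Ω) ^ i

/-- The quotient of the products of the characteristic polynomials of `F` on the `H^j`, `j ≤ k`, with
`j` even and with `j` odd is a rational function with rational coefficients. -/
def AltRational [CharZero Ω] (R : Coh.{v, w} Ω) (k : ℕ) : Prop :=
  ∃ P Q : Polynomial Ω, P ≠ 0 ∧ Q ≠ 0 ∧ RationalPoly P ∧ RationalPoly Q ∧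
    (∏ j ∈ (Finset.range (k + 1)).filter Even, charP R j) * Q =
      (∏ j ∈ (Finset.range (k + 1)).filter (fun j => ¬ Even j), charP R j) * P

/-- The function `val` is (on the nonzero numbers) a valuation normalized by `val q = 1`. -/
structure IsVal (q : ℕ) (val : Ω → ℝ) : Prop where
  mul : ∀ α β, α ≠ 0 → β ≠ 0 → val (α * β) = val α + val β
  norm : val (q : Ω) = 1

/-- The Newton polygon (of the slopes `val α` of the eigenvalues `α` of `F` on `H^m`) lies above the
Hodge polygon (of the numbers `hdg a`, the Hodge numbers `h^(a, m - a)`), and they have the same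
end point: `α i` and `a i` are the eigenvalues and the Hodge slopes with multiplicities, in the
order of increasing slopes. -/
def NewtonAboveHodge (R : Coh.{v, w} Ω) (val : Ω → ℝ) (m : ℕ) (hdg : ℕ → ℕ) : Prop :=
  ∃ (n : ℕ) (α : Fin n → Ω) (a : Fin n → ℕ),
    (∀ β, Nat.card {i // α i = β} = mult R m β) ∧ (∀ c, Nat.card {i // a i = c} = hdg c) ∧
    Monotone (fun i => val (α i)) ∧ Monotone a ∧
    (∀ k : ℕ, ∑ i ∈ Finset.univ.filter (fun i : Fin n => (i : ℕ) < k), (a i : ℝ) ≤
      ∑ i ∈ Finset.univ.filter (fun i : Fin n => (i : ℕ) < k), val (α i)) ∧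
    ∑ i, (a i : ℝ) = ∑ i, val (α i)

/-- The sum of the squares `(2 λ - m) ^ 2` over the slopes `λ` of `F` on `H^m`. -/
noncomputable def newtonMoment (R : Coh.{v, w} Ω) (val : Ω → ℝ) (m : ℕ) : ℝ :=
  ∑ᶠ α : Ω, (2 * val α - m) ^ 2 * (mult R m α : ℝ)

/-- The sum of the `(2 a - m) ^ 2 h^(a, m - a) = (a - b) ^ 2 h^(a, b)`, `a + b = m`. -/
noncomputable def hodgeMoment (m : ℕ) (hdg : ℕ → ℕ) : ℤ :=
  ∑ᶠ a : ℕ, (2 * (a : ℤ) - m) ^ 2 * (hdg a : ℤ)

/-- The number of the eigenvalues of `F` on the graded pieces `M_s / M_(s - 1)` of the filtration `M`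
of `H^m` whose weight is the expected one, `m + s`. -/
noncomputable def rightDeg [CharZero Ω] (R : Coh.{v, w} Ω) (q m : ℕ) (M : ℤ → Submodule Ω R.V) :
    ℤ := ∑ᶠ s : ℤ, overlap M (R.exc q m) s

end

/-- The data of a `p`-adic cohomology theory for the smooth proper varieties over the finite
extension `K` of `ℚ_p`: the Hyodo-Kato cohomology with coefficients extended to the algebraically
closed field `Ω`, `F` being the linear Frobenius; the Hodge numbers; the valuation. -/
structure PTheory (K : Type u) [Field K] (Ω : Type w) [Field Ω] where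
  /-- the cohomology -/
  H : SmVar.{u} K → Coh.{v, w} Ω
  /-- the Hodge numbers `hodge X m a = h^(a, m - a)(X)` -/
  hodge : SmVar.{u} K → ℕ → ℕ → ℕ
  /-- the valuation -/
  val : Ω → ℝ

/-- The known properties. -/
structure PTheory.IsPLocal {K : Type u} [Field K] {Ω : Type w} [Field Ω] [CharZero Ω]
    (T : PTheory.{u, v, w} K Ω) (q : ℕ) : Prop where
  coh : ∀ X, (T.H X).IsCoh q
  val : IsVal q T.val
  polygons : ∀ X m, NewtonAboveHodge (T.H X) T.val m (T.hodge X m)
  rational : ∀ X, AltRational (T.H X) (2 * X.dim)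

end Pool.Agent.Y163.MX
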