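import Pool.Agent.Y163.MW.Wt
import Pool.Agent.Y163.MX.Defs

/-!
# Galois conjugates of Weil numbers and rational characteristic polynomials
-/

set_option autoImplicit false

open Module Polynomial

namespace Pool.Agent.Y163.MX

universe u v w

open Pool.Agent.Y143 Pool.Agent.Y163.MW

section

variable {Ω : Type w} [Field Ω] [CharZero Ω]

/-- `q ^ w / α` is a conjugate of the Weil number `α` of weight `w`. -/
lemma minpoly_conj {q : ℕ} (hq : 0 < q) {w : ℤ} {α : Ω} (h : IsWeilNumber q w α) :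
    minpoly ℚ ((q : Ω) ^ w / α) = minpoly ℚ α := by
  have hint : IsIntegral ℚ α := h.1.isIntegral
  have hα0 : α ≠ 0 := weil_ne_zero hq h
  have hd : (minpoly ℚ α).degree ≠ 0 := (minpoly.degree_pos hint).ne'
  obtain ⟨z, hz⟩ := IsAlgClosed.exists_aeval_eq_zero ℂ (minpoly ℚ α) hd
  have hzr : z ∈ (minpoly ℚ α).aroots ℂ := by
    rw [mem_aroots]
    exact ⟨minpoly.ne_zero hint, hz⟩
  let E := IntermediateField.adjoin ℚ ({α} : Set Ω)
  let φ : E →ₐ[ℚ] ℂ := (IntermediateField.algHomAdjoinIntegralEquiv ℚ hint).symm ⟨z, hzr⟩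
  let g : E := IntermediateField.AdjoinSimple.gen ℚ α
  have hφ : φ g = z := IntermediateField.algHomAdjoinIntegralEquiv_symm_apply_gen ℚ hint ⟨z, hzr⟩
  have hgα : algebraMap E Ω g = α := IntermediateField.AdjoinSimple.algebraMap_gen ℚ α
  let β : E := (q : E) ^ w / g
  have hβΩ : algebraMap E Ω β = (q : Ω) ^ w / α := by
    rw [map_div₀, map_zpow₀, map_natCast, hgα]
  have hnz : ‖z‖ = (q : ℝ) ^ ((w : ℝ) / 2) := h.2 z hz
  have hq' : (0 : ℝ) < q := by exact_mod_cast hq
  have hz0 : z ≠ 0 := by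
    rintro rfl
    rw [norm_zero] at hnz
    have := Real.rpow_pos_of_pos hq' ((w : ℝ) / 2)
    linarith
  have hconj : φ β = (starRingEnd ℂ) z := by
    have h1 : φ β = (q : ℂ) ^ w / z := by
      rw [map_div₀, map_zpow₀, map_natCast, hφ]
    rw [h1, div_eq_iff hz0, mul_comm, Complex.mul_conj, Complex.normSq_eq_norm_sq, hnz,
      ← Real.rpow_natCast, ← Real.rpow_mul hq'.le]
    rw [show (w : ℝ) / 2 * ((2 : ℕ) : ℝ) = w by push_cast; ring, Real.rpow_intCast]
    push_cast
    rfl
  have h2 : aeval (φ β) (minpoly ℚ α) = 0 := by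
    rw [hconj]
    let c : ℂ →ₐ[ℚ] ℂ := (Complex.conjAe.toAlgHom).restrictScalars ℚ
    have h3 : aeval (c z) (minpoly ℚ α) = c (aeval z (minpoly ℚ α)) := aeval_algHom_apply c z _
    rw [hz, map_zero] at h3
    exact h3
  have h4 : aeval β (minpoly ℚ α) = 0 := by
    apply φ.toRingHom.injective
    rw [map_zero]
    have := aeval_algHom_apply φ β (minpoly ℚ α)
    rw [h2] at this
    exact this.symm
  have h5 : aeval ((q : Ω) ^ w / α) (minpoly ℚ α) = 0 := by
    rw [← hβΩ]
    have := aeval_algebraMap_apply Ω β (minpoly ℚ α)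
    rw [h4, map_zero] at this
    exact this
  exact (minpoly.eq_of_irreducible_of_monic (minpoly.irreducible hint) h5
    (minpoly.monic hint)).symm

/-- Conjugate numbers are roots of the same multiplicity of a rational polynomial. -/
lemma rootMultiplicity_conj {P : ℚ[X]} {α β : Ω} (h : minpoly ℚ β = minpoly ℚ α)
    (hα : IsIntegral ℚ α) (hβ : IsIntegral ℚ β) :
    (P.map (algebraMap ℚ Ω)).rootMultiplicity β = (P.map (algebraMap ℚ Ω)).rootMultiplicity α := by
  rcases eq_or_ne P 0 with rfl | hP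
  · simp
  have hP' : P.map (algebraMap ℚ Ω) ≠ 0 := (Polynomial.map_ne_zero_iff
    (algebraMap ℚ Ω).injective).2 hP
  have key : ∀ n, n < (P.map (algebraMap ℚ Ω)).rootMultiplicity β ↔
      n < (P.map (algebraMap ℚ Ω)).rootMultiplicity α := by
    intro n
    have h1 : ∀ γ : Ω, IsIntegral ℚ γ → ∀ m,
        (derivative^[m] (P.map (algebraMap ℚ Ω))).IsRoot γ ↔ minpoly ℚ γ ∣ derivative^[m] P := by
      intro γ hγ m
      rw [iterate_derivative_map, IsRoot.def, eval_map_algebraMap, minpoly.dvd_iff]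
    rw [lt_rootMultiplicity_iff_isRoot_iterate_derivative hP',
      lt_rootMultiplicity_iff_isRoot_iterate_derivative hP']
    simp only [h1 α hα, h1 β hβ, h]
  apply le_antisymm
  · by_contra hlt
    push Not at hlt
    have := (key _).1 hlt
    omega
  · by_contra hlt
    push Not at hlt
    have := (key _).2 hlt
    omega

lemma RationalPoly.mul {f g : (Polynomial Ω)} (hf : RationalPoly f) (hg : RationalPoly g) :
    RationalPoly (f * g) := by
  obtain ⟨P, rfl⟩ := hf
  obtain ⟨Q, rfl⟩ := hg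
  exact ⟨P * Q, by rw [Polynomial.map_mul]⟩

lemma RationalPoly.prod {ι : Type*} (s : Finset ι) {f : ι → (Polynomial Ω)}
    (h : ∀ i ∈ s, RationalPoly (f i)) : RationalPoly (∏ i ∈ s, f i) := by
  classical
  induction s using Finset.induction_on with
  | empty => exact ⟨1, by simp⟩
  | insert i s his ih =>
    rw [Finset.prod_insert his]
    exact (h i (Finset.mem_insert_self i s)).mul
      (ih fun j hj => h j (Finset.mem_insert_of_mem hj))

lemma RationalPoly.of_mul {f g : (Polynomial Ω)} (hfg : RationalPoly (f * g)) (hg : RationalPoly g)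
    (hg0 : g ≠ 0) : RationalPoly f := by
  obtain ⟨P, hP⟩ := hfg
  obtain ⟨Q, rfl⟩ := hg
  have h1 : Q.map (algebraMap ℚ Ω) ∣ P.map (algebraMap ℚ Ω) := ⟨f, by rw [← hP, mul_comm]⟩
  rw [Polynomial.map_dvd_map'] at h1
  obtain ⟨S, rfl⟩ := h1
  refine ⟨S, ?_⟩
  rw [Polynomial.map_mul, mul_comm] at hP
  exact mul_left_cancel₀ hg0 hP

end

end Pool.Agent.Y163.MX
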